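import Pool.Agent.Helper61.FN.GoalsC
import Pool.Agent.Helper61.FN.Tools

/-!
# Project FN, packet FN-C6
-/

set_option autoImplicit false

namespace Pool.Agent.Helper56.FN.C6

open Finset Pool.Agent.Helper61.FN

theorem goalC6 : G_C6 := by
  intro F k _ _ _ _ _ p q mu ep lam v M ξ h h2 h3 h4 h1 h5 h0
  have hp : 0 < p := lt_of_lt_of_le one_pos h.par.p1
  have hq : 0 < q := lt_of_lt_of_le one_pos h.par.q1
  have hmu := h.par.mu0
  have hph := h.par.ph0
  have hch := h.par.ch0
  have hM : M < v 0 := by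
    have hs := h.sm
    rw [h1, h2, h3, h4, h5] at hs
    by_contra hc
    have hc' : (v 0 : F) ≤ M := by exact_mod_cast not_lt.1 hc
    have hM0 : (0 : F) < M := by exact_mod_cast h.nrm.M_pos
    have h6 : (0 : F) < p * (p + ep) + q * (q + ep) + 2 * p * mu := by positivity
    have h7 : (0 : F) < 4 * p * q + 2 * q * mu := by positivity
    simp only [Int.cast_zero, mul_zero, add_zero] at hs
    nlinarith [mul_pos hM0 h6, mul_le_mul_of_nonneg_left hc' h7.le]
  refine h.nrm.neg ![1, 1, 0, 0, 0, 1] ?_ fun j hj ↦ ?_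
  · simp [Fin.sum_univ_succ, dC]
    positivity
  · rw [gr6]
    rw [pr6] at hj
    fin_cases j <;> simp [mC] at hj ⊢ <;> omega

end Pool.Agent.Helper56.FN.C6
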